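import Mathlib
import Pool.Agent.Lib.MP_600649_an.Proof

set_option autoImplicit false

/-!
# Optimality of the power bound for Ritt operators in terms of the Ritt constant (MP_600649_an)

For every `C ≥ 150` we show `φ_fin(C) ≥ (1/192) C log(1+C)` and `φ_fin(C) ≤ φ(C)`.

The example (file `Pool/Agent/Lib/MP_600649_an/Proof.lean`): on `ℂ × ℂ^(2m+1) × ℂ` with the supremum norm let
`T (a, y, b) = (0, m a g + S y, m y_0 + b)`, where `S` is the nilpotent backward shift and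
`g_j = 1/(m-j)` for `j ≠ m`, `g_m = 0` (`0 ≤ j ≤ 2m`).
The corner entry of `(z-1)(z-T)⁻¹` is `m² z⁻¹ ∑ g_j z⁻ʲ`, a Fejer polynomial bounded by `6 m²`, and all the other
entries are `O(m²)` for trivial reasons, so `C(T) ≤ 12 m²`; the corner entry of `T^(m+1)` is
`m² ∑_{j<m} g_j = m² H_m ≥ m² log(m+1)`.
-/

open scoped ENNReal
open Pool.Agent.Lib.MP_600649_an

namespace Pool.Agent.Results.MP_600649_an.RittSharp

/-- The Ritt constant `C(T)`, the supremum over `|z| > 1` of `‖(z-1)(z-T)⁻¹‖`, with values in `[0,∞]`. -/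
noncomputable def rittConst {X : Type} [NormedAddCommGroup X] [NormedSpace ℂ X] (T : X →L[ℂ] X) : ℝ≥0∞ :=
  ⨆ (z : ℂ) (_ : 1 < ‖z‖), ENNReal.ofReal ‖(z - 1) • resolvent T z‖

/-- `φ(C)`: the supremum of `‖T^n‖` over all complex Banach spaces `X`, all bounded operators `T` on `X`
with spectrum in the closed unit disc and Ritt constant at most `C`, and all `n`. -/
noncomputable def phi (C : ℝ) : ℝ≥0∞ :=
  ⨆ (X : Type) (_ : NormedAddCommGroup X) (_ : NormedSpace ℂ X) (_ : CompleteSpace X)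
    (T : X →L[ℂ] X) (_ : spectrum ℂ T ⊆ Metric.closedBall (0 : ℂ) 1)
    (_ : rittConst T ≤ ENNReal.ofReal C) (n : ℕ), ENNReal.ofReal ‖T ^ n‖

/-- `φ_fin(C)`: the same supremum over finite-dimensional spaces only. -/
noncomputable def phiFin (C : ℝ) : ℝ≥0∞ :=
  ⨆ (X : Type) (_ : NormedAddCommGroup X) (_ : NormedSpace ℂ X) (_ : FiniteDimensional ℂ X)
    (T : X →L[ℂ] X) (_ : spectrum ℂ T ⊆ Metric.closedBall (0 : ℂ) 1)
    (_ : rittConst T ≤ ENNReal.ofReal C) (n : ℕ), ENNReal.ofReal ‖T ^ n‖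

lemma phiFin_le_phi (C : ℝ) : phiFin C ≤ phi C := by
  unfold phiFin phi
  refine iSup_le fun X => iSup_le fun i1 => iSup_le fun i2 => iSup_le fun i3 => iSup_le fun T =>
    iSup_le fun h1 => iSup_le fun h2 => iSup_le fun n => ?_
  have i4 : CompleteSpace X := FiniteDimensional.complete ℂ X
  exact le_iSup_of_le X (le_iSup_of_le i1 (le_iSup_of_le i2 (le_iSup_of_le i4 (le_iSup_of_le T
    (le_iSup_of_le h1 (le_iSup_of_le h2 (le_iSup_of_le n le_rfl)))))))

lemma le_phiFin (m : ℕ) (hm : 1 ≤ m) (C : ℝ) (hC : 12 * (m : ℝ) ^ 2 ≤ C) :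
    ENNReal.ofReal ((m : ℝ) ^ 2 * Real.log (m + 1)) ≤ phiFin C := by
  have hspec : spectrum ℂ (op m) ⊆ Metric.closedBall (0 : ℂ) 1 := by
    intro z hz
    rw [Metric.mem_closedBall, dist_zero_right]
    by_contra hcon
    push Not at hcon
    exact (spectrum.mem_iff.mp hz) (isUnit_sub m hm z hcon)
  have hritt : rittConst (op m) ≤ ENNReal.ofReal C := by
    unfold rittConst
    refine iSup_le fun z => iSup_le fun hz => ?_
    exact ENNReal.ofReal_le_ofReal ((resolvent_bound m hm z hz).trans hC)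
  have hnorm : ENNReal.ofReal ((m : ℝ) ^ 2 * Real.log (m + 1)) ≤ ENNReal.ofReal ‖op m ^ (m + 1)‖ :=
    ENNReal.ofReal_le_ofReal (op_pow_norm m)
  refine hnorm.trans ?_
  unfold phiFin
  exact le_iSup_of_le (V m) (le_iSup_of_le inferInstance (le_iSup_of_le inferInstance
    (le_iSup_of_le inferInstance (le_iSup_of_le (op m)
    (le_iSup_of_le hspec (le_iSup_of_le hritt (le_iSup_of_le (m + 1) le_rfl)))))))

/-- The bound `C log(1+C)` is optimal, already on finite-dimensional spaces. -/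
theorem result : ∀ C : ℝ, 150 ≤ C →
    ENNReal.ofReal (1 / 192 * (C * Real.log (1 + C))) ≤ phiFin C ∧ phiFin C ≤ phi C := by
  intro C hC
  refine ⟨?_, phiFin_le_phi C⟩
  set m : ℕ := ⌊Real.sqrt (C / 12)⌋₊ with hm
  have hC12 : 0 ≤ C / 12 := by linarith
  have hs1 : (1 : ℝ) ≤ Real.sqrt (C / 12) := by
    rw [Real.one_le_sqrt]; linarith
  have hm1 : 1 ≤ m := by
    rw [hm, Nat.one_le_floor_iff]; exact hs1
  have hm1' : (1 : ℝ) ≤ m := by exact_mod_cast hm1
  have hle : (m : ℝ) ≤ Real.sqrt (C / 12) := Nat.floor_le (Real.sqrt_nonneg _)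
  have hlt : Real.sqrt (C / 12) < (m : ℝ) + 1 := Nat.lt_floor_add_one _
  have hsq : Real.sqrt (C / 12) ^ 2 = C / 12 := Real.sq_sqrt hC12
  have h12 : 12 * (m : ℝ) ^ 2 ≤ C := by
    have : (m : ℝ) ^ 2 ≤ Real.sqrt (C / 12) ^ 2 := by gcongr
    rw [hsq] at this
    linarith
  have hmm : C / 48 ≤ (m : ℝ) ^ 2 := by
    have h1 : Real.sqrt (C / 12) ≤ 2 * (m : ℝ) := by linarith
    have h2 : Real.sqrt (C / 12) ^ 2 ≤ (2 * (m : ℝ)) ^ 2 := by
      gcongr
    rw [hsq] at h2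
    nlinarith
  have hlog : 1 / 4 * Real.log (1 + C) ≤ Real.log ((m : ℝ) + 1) := by
    have h1 : 1 + C ≤ ((m : ℝ) + 1) ^ 4 := by
      have h2 : C / 12 ≤ ((m : ℝ) + 1) ^ 2 := by
        rw [← hsq]; gcongr
      have h3 : (C / 12) ^ 2 ≤ (((m : ℝ) + 1) ^ 2) ^ 2 := by gcongr
      have h4 : 1 + C ≤ (C / 12) ^ 2 := by nlinarith
      calc 1 + C ≤ (C / 12) ^ 2 := h4
        _ ≤ (((m : ℝ) + 1) ^ 2) ^ 2 := h3
        _ = ((m : ℝ) + 1) ^ 4 := by ring
    have h5 : Real.log (1 + C) ≤ Real.log (((m : ℝ) + 1) ^ 4) :=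
      Real.log_le_log (by linarith) h1
    rw [Real.log_pow] at h5
    push_cast at h5
    linarith
  refine le_trans ?_ (le_phiFin m hm1 C h12)
  refine ENNReal.ofReal_le_ofReal ?_
  have hl0 : 0 ≤ Real.log (1 + C) := Real.log_nonneg (by linarith)
  calc 1 / 192 * (C * Real.log (1 + C)) = C / 48 * (1 / 4 * Real.log (1 + C)) := by ring
    _ ≤ (m : ℝ) ^ 2 * Real.log ((m : ℝ) + 1) := by gcongr

end Pool.Agent.Results.MP_600649_an.RittSharp
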